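import Mathlib
import Pool.Agent.H455.NT7

set_option autoImplicit false

/-!
# MP_7bfa24_nt: the generalized abc conjecture for compressible summands

Fix the number `n ≥ 3` of summands, a finite set `S` of primes and bases `b_1, …, b_n`, `h` whose
prime factors are in `S`. A number is called simple if its digits (in the given base) form, read in
one of the two directions, a word with at most `z` Lempel-Ziv phrases, or if a multiple `k x`,
`1 ≤ k ≤ M`, is a sum of `z` terms `v b ^ l` with integers `|v| ≤ M`. Consider the admissible tuples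
of the problem (`x_1 + … + x_n = 0`, no prime divides all of them, no proper subsum vanishes) such
that

* every `x_i` is simple in its base `b_i`;
* the product `R` of the primes `p ∉ S` which divide `x_1 ⋯ x_n`, or the quotient of the part
  prime to `S` of this product by `R`, is simple in base `h`;
* no `x_i` is divisible by `p ^ (m + 1)` for a prime `p ∉ S`.

It is shown that `max |x_i| ≤ (2 M) ^ C R ^ ((n - 1) (n - 2) / 2 + ε)` for all of them and every
`M ≥ 1`, where the constant `C` depends only on `n, S, b_i, h, z, m, ε`. There is no exceptional set.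
For `n = 3` and `n = 4` the exponents are `1 + ε` and `3 + ε`, which is `2 n - 5 + ε`. The summands
may be divisible by arbitrary numbers with large radical, have large common divisors, and nothing is
assumed about their factors.

The proof: along a sequence of counterexamples all summands, the radical and the cofactors
`R ^ m / x_i` are (after passing to a subsequence, by Newton's approximation and the Subspace
theorem) sums of few `S`-units with slowly growing coefficients; a basis of the group generated by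
these units makes them polynomials over the field of germs of slow growth. There the inequality is
proved with Wronskians of minimal linear relations between the summands: the set of the summands is
exhausted in steps, each of them costs a power `a (a - 1) / 2` of the radical, where `a` is the number
of the new summands. The Wronskians are bounded at all places of `S` because sums of `S`-units which
are independent modulo germs of slow growth have no cancellation.
-/

namespace Pool.Agent.Results.MP_7bfa24_nt.CompressibleSummands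

open Finset

/-- The product of the primes outside of `S` which divide `n`. -/
def rad (S : Finset ℕ) (n : ℕ) : ℕ := ∏ p ∈ n.primeFactors with p ∉ S, p

/-- The part of `n` prime to the primes of `S`. -/
def part (S : Finset ℕ) (n : ℕ) : ℕ := ∏ p ∈ n.primeFactors with p ∉ S, p ^ n.factorization p

/-- The letters in the positions `n ≤ j < m` of the word `a` form one phrase: it is a single letter,
or a copy of a block of letters starting `p` positions earlier (which may overlap the phrase). -/
def Phrase {α : Type} (a : ℕ → α) (n m : ℕ) : Prop :=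
  m = n + 1 ∨ (n ≤ m ∧ ∃ p, 0 < p ∧ p ≤ n ∧ ∀ j, n ≤ j → j < m → a j = a (j - p))

/-- The word `a 0, …, a (L - 1)` is a concatenation of `z` phrases. -/
def Compressible {α : Type} (a : ℕ → α) (L z : ℕ) : Prop :=
  ∃ c : ℕ → ℕ, c 0 = 0 ∧ c z = L ∧ ∀ i < z, Phrase a (c i) (c (i + 1))

/-- The digit of `|x|` in base `b` at the place `i` (the last digit has the place `0`). -/
def digit (b : ℕ) (x : ℤ) (i : ℕ) : ℕ := x.natAbs / b ^ i % b

/-- The number of digits of `|x|` in base `b`. -/
def places (b : ℕ) (x : ℤ) : ℕ := (Nat.digits b x.natAbs).length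

/-- The digits of `|x|` in base `b`, read from the last to the first one or from the first to the
last one, form a word with `z` phrases. -/
def CompressibleDigits (b z : ℕ) (x : ℤ) : Prop :=
  Compressible (fun j => digit b x j) (places b x) z ∨
    Compressible (fun j => digit b x (places b x - 1 - j)) (places b x) z

/-- A multiple `k x`, `1 ≤ k ≤ M`, is a sum of `z` terms `v b ^ l` with integers `|v| ≤ M`. -/
def FewPowers (b z : ℕ) (M : ℝ) (x : ℤ) : Prop :=
  ∃ (k : ℕ) (l : Fin z → ℕ) (v : Fin z → ℤ), 0 < k ∧ (k : ℝ) ≤ M ∧ (∀ j, |(v j : ℝ)| ≤ M) ∧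
    (k : ℤ) * x = ∑ j, v j * (b : ℤ) ^ l j

/-- The digits in base `b` are compressible, or few powers of `b` suffice. -/
def Simple (b z : ℕ) (M : ℝ) (x : ℤ) : Prop := CompressibleDigits b z x ∨ FewPowers b z M x

/-- **Main theorem.** -/
theorem result (S : Finset ℕ) (hS : ∀ p ∈ S, p.Prime) (n : ℕ) (hn : 3 ≤ n) (b : Fin n → ℕ) (h : ℕ)
    (hb : ∀ i, 2 ≤ b i) (hbS : ∀ i, (b i).primeFactors ⊆ S) (hh : 2 ≤ h)
    (hhS : h.primeFactors ⊆ S) (z m : ℕ) (ε : ℝ) (hε : 0 < ε) :
    ∃ C : ℕ, ∀ (M : ℝ) (x : Fin n → ℤ), 1 ≤ M → ∑ i, x i = 0 →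
      (∀ p : ℕ, p.Prime → ∃ i, ¬ (p : ℤ) ∣ x i) →
      (∀ I : Finset (Fin n), I.Nonempty → I ≠ Finset.univ → ∑ i ∈ I, x i ≠ 0) →
      (∀ i, Simple (b i) z M (x i)) →
      (Simple h z M (rad S (∏ i, x i).natAbs) ∨
        ∃ q : ℤ, q * rad S (∏ i, x i).natAbs = part S (∏ i, x i).natAbs ∧ Simple h z M q) →
      (∀ p : ℕ, p.Prime → p ∉ S → ∀ i, ¬ (p : ℤ) ^ (m + 1) ∣ x i) →
      ∀ i, |(x i : ℝ)| ≤ (2 * M) ^ C *
        (rad S (∏ i, x i).natAbs : ℝ) ^ (((n : ℝ) - 1) * ((n : ℝ) - 2) / 2 + ε) := by
  classical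
  obtain ⟨N, rfl⟩ : ∃ N, n = N + 1 := ⟨n - 1, by omega⟩
  have hN : 2 ≤ N := by omega
  have hl2 : 0 < Real.log 2 := Real.log_pos (by norm_num)
  obtain ⟨E, hE⟩ : ∃ E : ℝ, E = (((N + 1 : ℕ) : ℝ) - 1) * (((N + 1 : ℕ) : ℝ) - 2) / 2 := ⟨_, rfl⟩
  have hE' : (Pool.Agent.H455.NT.tri N : ℝ) = E := by
    rw [hE]
    have h1 : Pool.Agent.H455.NT.tri N * 2 = N * (N - 1) := by
      unfold Pool.Agent.H455.NT.tri
      rw [Fin.sum_univ_eq_sum_range (fun i => i) N, Finset.sum_range_id_mul_two]
    have h2 : (Pool.Agent.H455.NT.tri N : ℝ) * 2 = N * ((N - 1 : ℕ) : ℝ) := by exact_mod_cast h1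
    rw [Nat.cast_sub (by omega : 1 ≤ N)] at h2
    push_cast at h2 ⊢
    linarith
  have hE0 : 0 ≤ E := by
    rw [← hE']
    positivity
  obtain ⟨C1, hC1⟩ := Pool.Agent.H455.NT.main_gcd hS hN m z True ε hε
    (Sum.elim b fun _ => h) (fun i => by rcases i with i | i; exacts [hb i, hh])
    (fun i => by rcases i with i | i; exacts [hbS i, hhS])
  obtain ⟨C2, hC2⟩ := Pool.Agent.H455.NT.main_gcd hS hN m z False ε hε
    (Sum.elim b fun _ => h) (fun i => by rcases i with i | i; exacts [hb i, hh])
    (fun i => by rcases i with i | i; exacts [hbS i, hhS])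
  rw [hE'] at hC1 hC2
  obtain ⟨C3, hC3⟩ : ∃ C3 : ℝ, C3 = |C1| + |C2| := ⟨_, rfl⟩
  have hC30 : 0 ≤ C3 := by
    rw [hC3]
    positivity
  obtain ⟨K, hK⟩ := exists_nat_ge (C3 / Real.log 2)
  rw [div_le_iff₀ hl2] at hK
  refine ⟨K, ?_⟩
  intro M x hM hsum hcop hsub hx hr hm i
  have hlM : 0 ≤ Real.log M := Real.log_nonneg hM
  have hCM : C3 * (1 + Real.log M) ≤ K * Real.log (2 * M) := by
    rw [Real.log_mul (by norm_num) (by linarith)]
    have h4 : Real.log 2 ≤ 1 := by
      have := Real.log_two_lt_d9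
      linarith
    have h5 : (K : ℝ) * Real.log 2 * Real.log M ≤ K * Real.log M := by
      have h6 : (0 : ℝ) ≤ K * Real.log M := mul_nonneg (Nat.cast_nonneg _) hlM
      nlinarith
    nlinarith
  rw [← hE]
  have hx0 : ∀ i, x i ≠ 0 := fun i => by
    have h1 := hsub {i} (Finset.singleton_nonempty i) (fun h2 => by
      have h3 := congrArg Finset.card h2
      rw [Finset.card_singleton, Finset.card_univ, Fintype.card_fin] at h3
      omega)
    rwa [Finset.sum_singleton] at h1
  have hr1 : 1 ≤ rad S (∏ i, x i).natAbs := Pool.Agent.H455.AD.rd_pos _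
  have hr1R : (1 : ℝ) ≤ rad S (∏ i, x i).natAbs := by exact_mod_cast hr1
  have hm' : ∀ p : ℕ, p.Prime → p ∉ S → ∀ i, (x i).natAbs.factorization p ≤ m := by
    intro p hp hpS i
    by_contra hcon
    push Not at hcon
    apply hm p hp hpS i
    have h1 : p ^ (m + 1) ∣ (x i).natAbs :=
      (hp.pow_dvd_iff_le_factorization (Int.natAbs_ne_zero.2 (hx0 i))).2 (by omega)
    have h2 := Int.natCast_dvd.2 h1
    exact_mod_cast h2
  -- it suffices to bound the logarithm
  have hfin : ∀ (alt : Prop) (P : Pool.Agent.H455.NT.NPt S N m alt (Pool.Agent.H455.NT.QG N))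
      (C : ℝ), P.x = x → P.M = M → |C| ≤ C3 →
      P.H ≤ (E + ε) * Real.log P.ρ + C * (1 + Real.log P.M) →
      |(x i : ℝ)| ≤ (2 * M) ^ K * (rad S (∏ i, x i).natAbs : ℝ) ^ (E + ε) := by
    intro alt P C hPx hPM hC h1
    have h2 := P.x_le i
    rw [hPx] at h2
    have h3 : (P.ρ : ℝ) = (rad S (∏ i, x i).natAbs : ℝ) := by
      unfold Pool.Agent.H455.NT.NPt.ρ
      rw [hPx]
      rfl
    rw [h3, hPM] at h1
    have h4 : |(x i : ℝ)| ≤ P.Y := by
      have h5 : |(x i : ℝ)| = (((x i).natAbs : ℕ) : ℝ) := by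
        rw [Nat.cast_natAbs, Int.cast_abs]
      rw [h5]
      exact_mod_cast h2
    have h0 : 0 < |(x i : ℝ)| := by
      rw [abs_pos]
      exact_mod_cast hx0 i
    rw [← Real.log_le_log_iff h0 (by positivity), Real.log_mul (by positivity) (by positivity),
      Real.log_pow, Real.log_rpow (by linarith)]
    have h5 := Real.log_le_log h0 h4
    have h7 : Real.log (P.Y : ℝ) = P.H := rfl
    have h8 : C * (1 + Real.log M) ≤ C3 * (1 + Real.log M) :=
      mul_le_mul_of_nonneg_right ((le_abs_self C).trans hC) (by linarith)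
    rw [h7] at h5
    linarith
  have hbase : ∀ (P : Fin (N + 1) ⊕ Unit → ℤ), (∀ i, P (Sum.inl i) = x i) →
      Simple h z M (P (Sum.inr ())) → ∀ i, Simple (Sum.elim b (fun _ => h) i) z M (P i) := by
    intro P hP hu i
    rcases i with i | i
    · rw [hP]
      exact hx i
    · exact hu
  have hQ : Pool.Agent.H455.NT.QG N x := ⟨hcop, hsub⟩
  rcases hr with hr | ⟨q, hq, hr⟩
  · obtain ⟨P, hPx, hPZ, hPM⟩ :
        ∃ P : Pool.Agent.H455.NT.NPt S N m True (Pool.Agent.H455.NT.QG N),
        P.x = x ∧ P.Z = rad S (∏ i, x i).natAbs ∧ P.M = M :=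
      ⟨⟨x, rad S (∏ i, x i).natAbs, M, hx0, hsum, hQ, hm', Or.inl ⟨trivial, rfl⟩, hM⟩,
        rfl, rfl, rfl⟩
    refine hfin True P C1 hPx hPM ?_ (hC1 P (fun i => ?_))
    · rw [hC3]
      have := abs_nonneg C2
      linarith
    · have h1 := hbase P.z (fun i => by unfold Pool.Agent.H455.NT.NPt.z; rw [← hPx]; rfl)
        (by unfold Pool.Agent.H455.NT.NPt.z; rw [Sum.elim_inr, hPZ]; exact hr) i
      rw [hPM]
      exact h1
  · obtain ⟨P, hPx, hPZ, hPM⟩ :
        ∃ P : Pool.Agent.H455.NT.NPt S N m False (Pool.Agent.H455.NT.QG N),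
        P.x = x ∧ P.Z = q ∧ P.M = M :=
      ⟨⟨x, q, M, hx0, hsum, hQ, hm', Or.inr ⟨not_false, hq⟩, hM⟩, rfl, rfl, rfl⟩
    refine hfin False P C2 hPx hPM ?_ (hC2 P (fun i => ?_))
    · rw [hC3]
      have := abs_nonneg C1
      linarith
    · have h1 := hbase P.z (fun i => by unfold Pool.Agent.H455.NT.NPt.z; rw [← hPx]; rfl)
        (by unfold Pool.Agent.H455.NT.NPt.z; rw [Sum.elim_inr, hPZ]; exact hr) i
      rw [hPM]
      exact h1

end Pool.Agent.Results.MP_7bfa24_nt.CompressibleSummands
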